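import Pool.Agent.Helper533.Deny.Final

/-!
# MP_9b58c5_an: every `𝒜`-polar `G_δ` set is the infinity set of an `𝒜`-superharmonic function

Positive answer to Q1, for all `n ≥ 1`, `1 < p < ∞`, all `p`-admissible measures `dμ = w dx` and all
operators `𝒜` satisfying the structure conditions. The definitions are those of
`Pool.Agent.Helper533.Polar.Stmt` and `Pool.Agent.Helper533.Deny`.
-/

set_option autoImplicit false

open Set

namespace Pool.Agent.Results.MP_9b58c5_an.PolarGdelta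

open Pool.Agent.Helper533.Polar.Stmt hiding IsAdmissible IsSuperharmonic
open Pool.Agent.Helper533.Deny

/-- Let `n ≥ 1`, `1 < p < ∞`, let `dμ = w dx` be `p`-admissible and let `𝒜` satisfy the structure
conditions. Every `𝒜`-polar `G_δ` set `E ⊆ ℝⁿ` is the set `{u = ∞}` of a function `u` which is
`𝒜`-superharmonic in `ℝⁿ`. -/
theorem result : ∀ (n : ℕ), 1 ≤ n → ∀ (p : ℝ), 1 < p → ∀ (w : Sp n → ℝ), IsAdmissible p w →
    ∀ (α β : ℝ) (𝒜 : Sp n → Sp n → Sp n), IsOperator p α β w 𝒜 →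
    ∀ E : Set (Sp n), IsGδ E → IsPolar 𝒜 p w E →
    ∃ u : Sp n → EReal, IsSuperharmonic 𝒜 p w univ u ∧ E = {x | u x = ⊤} := by
  intro n hn p hp w hw α β 𝒜 hA E hE hpol
  obtain ⟨u, hu, hE2⟩ := Pool.Agent.Helper533.Polar.deny_theorem hn hp hw hA hE hpol
  exact ⟨u, hu, hE2.symm⟩

end Pool.Agent.Results.MP_9b58c5_an.PolarGdelta
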